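import Pool.Agent.J6H49.ES.Defs
import Pool.Agent.J6H49.IP.Main
import Pool.Agent.H620R2.Gauge2.Trans

/-!
# Inclusions between the classes
-/

set_option autoImplicit false

namespace Pool.Agent.J6H49.ES

open Pool.Agent.NPC Pool.Agent.H628R3.RO Filter
open Pool.Agent.H622R2 (poly_pairBits)
open Pool.Agent.J6H49.OP (InSpace)
open Pool.Agent.H620R2.Gauge (IsPSPACE)

/-- the same algorithm, in the other formalization -/
def tra (M : Alg) : Pool.Agent.H620R2.Gauge.Alg := ⟨M.D, M.poly, M.p⟩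

theorem tra_run (M : Alg) (B : Oracle) (x : List Bool) : ∀ (n : ℕ) (a : List Bool),
    (tra M).run B x n a = M.run B x n a := by
  intro n
  induction n with
  | zero => intro a; rfl
  | succ n ih =>
    intro a
    have e : (tra M).D = M.D := rfl
    rcases h : M.D (pairBits x a) with _ | ⟨b, q⟩
    · simp only [Pool.Agent.H620R2.Gauge.Alg.run, Alg.run, e, h]
    · cases b
      · simp only [Pool.Agent.H620R2.Gauge.Alg.run, Alg.run, e, h, ih]
      · simp only [Pool.Agent.H620R2.Gauge.Alg.run, Alg.run, e, h]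

theorem isFP_tra {B : Oracle} {F : List Bool → List Bool} (h : IsFP B F) :
    Pool.Agent.H620R2.Gauge.IsFP B F := by
  obtain ⟨M, hM⟩ := h
  refine ⟨tra M, fun x => ?_⟩
  rw [← hM x]
  exact tra_run M B x _ _

theorem isFP_tra' {B : Oracle} {F : List Bool → List Bool}
    (h : Pool.Agent.H620R2.Gauge.IsFP B F) : IsFP B F := by
  obtain ⟨M, hM⟩ := h
  refine ⟨⟨M.D, M.poly, M.p⟩, fun x => ?_⟩
  rw [← hM x]
  exact (tra_run ⟨M.D, M.poly, M.p⟩ B x _ _).symm

/-- `NP` is contained in polynomial space. -/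
theorem isPSPACE_of_isNP {B : Oracle} {L : Set (List Bool)} (h : IsNP B L) : IsPSPACE B L := by
  obtain ⟨V, p, hV, hx⟩ := h
  have h1 : IsFP B (fun z => V (pairBits (unpair z).2 (unpair z).1)) :=
    IsFP.comp hV (IsFP.of_poly (poly_pairBits (Poly.snd poly_unpair) (Poly.fst poly_unpair)))
  refine Pool.Agent.H620R2.Gauge.IsNP.isPSPACE ⟨_, p, isFP_tra h1, fun x => ?_⟩
  rw [hx x]
  simp only [unpair_pairBits]

/-- `P` is contained in `NP`. -/
theorem isNP_of_isP {B : Oracle} {L : Set (List Bool)} (h : Pool.Agent.J6H49.IP.IsP B L) :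
    IsNP B L := by
  obtain ⟨V, hV, hx⟩ := h
  refine ⟨fun z => V (unpair z).1, 0, IsFP.comp hV (IsFP.of_poly (Poly.fst poly_unpair)),
    fun x => ?_⟩
  rw [hx x]
  simp only [unpair_pairBits]
  constructor
  · exact fun h => ⟨[], by simp, h⟩
  · rintro ⟨_, _, h⟩
    exact h

theorem InTimePow.inNTimePow {N : ℕ → ℕ} {B : Oracle} {L : Set (List Bool)}
    (h : InTimePow N B L) : InNTimePow N B L := by
  obtain ⟨c, L', h1, h2⟩ := h
  exact ⟨c, L', isNP_of_isP h1, h2⟩

theorem InNTimePow.inSpace {N : ℕ → ℕ} {B : Oracle} {L : Set (List Bool)}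
    (h : InNTimePow N B L) : InSpace N B L := by
  obtain ⟨c, L', h1, h2⟩ := h
  exact ⟨c, L', isPSPACE_of_isNP h1, h2⟩

theorem collapsedAbove_of {t : ℕ → ℕ} {B : Oracle}
    (h : ∀ N : ℕ → ℕ, (∀ n, n + 2 ≤ N n) → (∀ᶠ n in atTop, t n ≤ N n) →
      ∀ L, InSpace N B L → InTimePow N B L) : CollapsedAbove t B := fun N h1 h2 L =>
  ⟨⟨fun h3 => h3.inNTimePow, fun h3 => h N h1 h2 L h3.inSpace⟩,
    ⟨fun h3 => h3.inNTimePow.inSpace, fun h3 => h N h1 h2 L h3⟩⟩

end Pool.Agent.J6H49.ES
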