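import Pool.Agent.J6H49.OP.Defs
import Pool.Agent.J6H49.IP.Defs

/-!
# Time and space classes above polynomial
-/

set_option autoImplicit false

namespace Pool.Agent.J6H49.ES

open Pool.Agent.NPC Pool.Agent.H628R3.RO Filter
open Pool.Agent.J6H49.OP (InSpace)
open Pool.Agent.J6H49.IP (IsP)

/-- The problem `L` is decided in time `N(n) ^ O(1)` relative to the oracle `B`: for some constant
`c`, the input `x`, padded with `N |x| ^ c` ones, is decided in polynomial time. -/
def InTimePow (N : ℕ → ℕ) (B : Oracle) (L : Set (List Bool)) : Prop :=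
  ∃ (c : ℕ) (L' : Set (List Bool)), IsP B L' ∧
    ∀ x : List Bool, x ∈ L ↔ pairBits x (List.replicate (N x.length ^ c) true) ∈ L'

/-- The problem `L` is decided in nondeterministic time `N(n) ^ O(1)` relative to `B`. -/
def InNTimePow (N : ℕ → ℕ) (B : Oracle) (L : Set (List Bool)) : Prop :=
  ∃ (c : ℕ) (L' : Set (List Bool)), IsNP B L' ∧
    ∀ x : List Bool, x ∈ L ↔ pairBits x (List.replicate (N x.length ^ c) true) ∈ L'

/-- superpolynomial functions -/
def Superpoly (t : ℕ → ℕ) : Prop := ∀ k : ℕ, ∀ᶠ n in atTop, n ^ k ≤ t n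

/-- Everything at least as large as the function `t` collapses relative to the oracle `B`: for every
function `N` with `N n ≥ t n` for all large `n` (and `N n ≥ n + 2`), deterministic time, nondeterministic
time and space `N(n) ^ O(1)` are the same. -/
def CollapsedAbove (t : ℕ → ℕ) (B : Oracle) : Prop :=
  ∀ N : ℕ → ℕ, (∀ n, n + 2 ≤ N n) → (∀ᶠ n in atTop, t n ≤ N n) →
    ∀ L, (InTimePow N B L ↔ InNTimePow N B L) ∧ (InTimePow N B L ↔ InSpace N B L)

end Pool.Agent.J6H49.ES
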