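import Pool.Agent.J6H49.ES.Univ

/-!
# Polynomial space after polynomial time
-/

set_option autoImplicit false

namespace Pool.Agent.J6H49.ES

open Pool.Agent.NPC Pool.Agent.H628R3.RO Filter Pool.Agent.J6H49.OP Pool.Agent.J6H49.IP
open Pool.Agent.J6H54.RO
open Pool.Agent.H620R2.Gauge (SAlg IsPSPACE)
open Pool.Agent.H622R2 (poly_pairBits poly_of_polyTime polyTime_of_poly_list)

/-- the state which is given by the memory: `false :: q` is a question of the first algorithm,
`true :: pairBits z s` a memory of the second one, with the input `z` -/
def dec (D : List Bool → List Bool) (y m : List Bool) : List Bool :=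
  if m.head? = some true then m
  else if (D (pairBits y m.tail)).head? = some false then D (pairBits y m.tail)
  else true :: pairBits (D (pairBits y m.tail)).tail []

theorem p_dec {D : List Bool → List Bool} (hD : PolyTime D) {α : Type} [TEnc α]
    {y m : α → List Bool} (hy : Poly y) (hm : Poly m) : Poly (fun a => dec D (y a) (m a)) := by
  have h1 : Poly (fun a => D (pairBits (y a) (m a).tail)) :=
    (poly_of_polyTime hD).comp (poly_pairBits hy (Poly.tail hm))
  refine Poly.ite (Poly.decide_eq (Poly.head? hm) (NPC.Poly.const _)) hm ?_
  refine Poly.ite (Poly.decide_eq (Poly.head? h1) (NPC.Poly.const _)) h1 ?_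
  exact Poly.cons (NPC.Poly.const true) (poly_pairBits (Poly.tail h1) (NPC.Poly.const []))

/-- the next action -/
def cact (D : List Bool → List Bool) (M : SAlg) (v : List Bool) : List Bool :=
  if (dec D (unpair v).1 (unpair v).2).head? = some false then dec D (unpair v).1 (unpair v).2
  else M.act (dec D (unpair v).1 (unpair v).2).tail

/-- the next memory -/
def cnext (D : List Bool → List Bool) (M : SAlg) (v : List Bool) : List Bool :=
  let d := dec D (unpair v).1 (unpair v).2.tail
  if d.head? = some false then
    false :: ((unpair v).2.tail.tail ++ [(unpair v).2.head?.getD false])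
  else true :: pairBits (unpair d.tail).1
    (M.next (pairBits (unpair d.tail).1 ((unpair v).2.head?.getD false :: (unpair d.tail).2)))

/-- the composed algorithm -/
def comb {D : List Bool → List Bool} (hD : PolyTime D) (M : SAlg) : SAlg where
  act := cact D M
  act_poly := by
    apply polyTime_of_poly_list
    have h := p_dec hD (Poly.fst poly_unpair) (Poly.snd poly_unpair)
    exact Poly.ite (Poly.decide_eq (Poly.head? h) (NPC.Poly.const _)) h
      ((poly_of_polyTime M.act_poly).comp (Poly.tail h))
  next := cnext D M
  next_poly := by
    apply polyTime_of_poly_list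
    have h2 : Poly (fun v : List Bool => (unpair v).2) := Poly.snd poly_unpair
    have h := p_dec hD (Poly.fst poly_unpair) (Poly.tail h2)
    have h3 : Poly (fun v : List Bool =>
        (unpair (dec D (unpair v).1 (unpair v).2.tail).tail)) := poly_unpair.comp (Poly.tail h)
    have h4 : Poly (fun v : List Bool => (unpair v).2.head?.getD false) :=
      Poly.head?_getD h2 false
    refine Poly.ite (Poly.decide_eq (Poly.head? h) (NPC.Poly.const _)) ?_ ?_
    · exact Poly.cons (NPC.Poly.const false) (Poly.append (Poly.tail (Poly.tail h2))
        (Poly.cons h4 (NPC.Poly.const [])))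
    · exact Poly.cons (NPC.Poly.const true) (poly_pairBits (Poly.fst h3)
        ((poly_of_polyTime M.next_poly).comp (poly_pairBits (Poly.fst h3)
          (Poly.cons h4 (Poly.snd h3)))))

theorem act_of_question {D : List Bool → List Bool} (hD : PolyTime D) (M : SAlg)
    {y m : List Bool} (h : (dec D y m).head? = some false) :
    (comb hD M).act (pairBits y m) = dec D y m ∧
      ∀ b, (comb hD M).next (pairBits y (b :: m)) = false :: (m.tail ++ [b]) := by
  constructor
  · show cact D M (pairBits y m) = _
    unfold cact
    simp only [unpair_pairBits]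
    rw [if_pos h]
  · intro b
    show cnext D M (pairBits y (b :: m)) = _
    unfold cnext
    simp only [unpair_pairBits, List.tail_cons, List.head?_cons, Option.getD_some]
    rw [if_pos h]

theorem act_of_memory {D : List Bool → List Bool} (hD : PolyTime D) (M : SAlg)
    {y m z s : List Bool} (h : dec D y m = true :: pairBits z s) :
    (comb hD M).act (pairBits y m) = M.act (pairBits z s) ∧
      ∀ b, (comb hD M).next (pairBits y (b :: m)) =
        true :: pairBits z (M.next (pairBits z (b :: s))) := by
  constructor
  · show cact D M (pairBits y m) = _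
    unfold cact
    simp only [unpair_pairBits]
    rw [h, if_neg (by simp)]
    rfl
  · intro b
    show cnext D M (pairBits y (b :: m)) = _
    unfold cnext
    simp only [unpair_pairBits, List.tail_cons, List.head?_cons, Option.getD_some]
    rw [h, if_neg (by simp)]
    simp only [List.tail_cons, unpair_pairBits]

/-- the memory belongs to the first algorithm -/
def First (M₁ : Alg) (B : Oracle) (y z m : List Bool) : Prop :=
  m.head? ≠ some true ∧ ∃ n, m.tail.length + n = M₁.p.eval y.length ∧
    M₁.run B y n m.tail = some z

theorem First.cases {M₁ : Alg} {B : Oracle} {y z m : List Bool} (h : First M₁ B y z m) :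
    (∃ q, dec M₁.D y m = false :: q ∧ First M₁ B y z (false :: (m.tail ++ [B q]))) ∨
      dec M₁.D y m = true :: pairBits z [] := by
  obtain ⟨h1, n, h2, h3⟩ := h
  unfold dec
  rw [if_neg h1]
  rcases n with _ | n
  · simp [Alg.run] at h3
  rcases hD : M₁.D (pairBits y m.tail) with _ | ⟨b, q⟩
  · right
    simp only [Alg.run, hD, Option.some.injEq] at h3
    subst h3
    simp
  · cases b
    · left
      simp only [Alg.run, hD] at h3
      refine ⟨q, by simp, by simp, n, ?_, h3⟩
      rw [List.tail_cons, List.length_append, List.length_singleton]
      omega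
    · right
      simp only [Alg.run, hD, Option.some.injEq] at h3
      subst h3
      simp

/-- **Polynomial space after polynomial time.** -/
theorem isPSPACE_comp {B : Oracle} {L : Set (List Bool)} (hL : IsPSPACE B L)
    {F : List Bool → List Bool} (hF : IsFP B F) : IsPSPACE B {y | F y ∈ L} := by
  obtain ⟨bF, hbF⟩ := IsFP.length_le hF
  obtain ⟨M₁, hM₁⟩ := hF
  obtain ⟨M, p, hM⟩ := hL
  refine ⟨comb M₁.poly M, M₁.p + (2 * bF + 2 + p.comp bF) + 1, fun y => ⟨?_, ?_⟩⟩
  · have key : ∀ m, (comb M₁.poly M).Reach B y m → First M₁ B y (F y) m ∨
        ∃ s, m = true :: pairBits (F y) s ∧ M.Reach B (F y) s := by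
      intro m hm
      induction hm with
      | start => exact Or.inl ⟨by simp, M₁.p.eval y.length, by simp, hM₁ y⟩
      | @step m q hm hq ih =>
        rcases ih with ih | ⟨s, rfl, hs⟩
        · rcases ih.cases with ⟨q', h1, h2⟩ | h1
          · obtain ⟨h3, h4⟩ := act_of_question M₁.poly M (y := y) (m := m) (by rw [h1]; rfl)
            rw [h3, h1, List.cons.injEq] at hq
            rw [h4, ← hq.2]
            exact Or.inl h2
          · obtain ⟨h3, h4⟩ := act_of_memory M₁.poly M h1
            rw [h3] at hq
            rw [h4]
            exact Or.inr ⟨_, rfl, SAlg.Reach.step SAlg.Reach.start hq⟩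
        · have h1 : dec M₁.D y (true :: pairBits (F y) s) = true :: pairBits (F y) s := by
            unfold dec
            rw [if_pos (by simp)]
          obtain ⟨h3, h4⟩ := act_of_memory M₁.poly M h1
          rw [h3] at hq
          rw [h4]
          exact Or.inr ⟨_, rfl, SAlg.Reach.step hs hq⟩
    intro m hm
    simp only [Polynomial.eval_add, Polynomial.eval_mul, Polynomial.eval_ofNat,
      Polynomial.eval_comp, Polynomial.eval_one]
    rcases key m hm with ⟨-, n, h1, -⟩ | ⟨s, rfl, hs⟩
    · have : m.length ≤ m.tail.length + 1 := by
        rw [List.length_tail]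
        omega
      omega
    · rw [List.length_cons, length_pairBits]
      have h1 := (hM (F y)).1 s hs
      have h2 := hbF y
      have h3 := eval_mono p h2
      omega
  · -- the first algorithm stops
    have k1 : ∀ (n : ℕ) (m : List Bool), (comb M₁.poly M).Reach B y m → m.head? ≠ some true →
        m.tail.length + n = M₁.p.eval y.length → M₁.run B y n m.tail = some (F y) →
        ∃ m', (comb M₁.poly M).Reach B y m' ∧ dec M₁.D y m' = true :: pairBits (F y) [] := by
      intro n
      induction n with
      | zero =>
        intro m _ _ _ h3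
        simp [Alg.run] at h3
      | succ n ih =>
        intro m hm h1 h2 h3
        rcases (show First M₁ B y (F y) m from ⟨h1, n + 1, h2, h3⟩).cases with
          ⟨q, h4, h5, n', h6, h7⟩ | h4
        · obtain ⟨h8, h9⟩ := act_of_question M₁.poly M (y := y) (m := m) (by rw [h4]; rfl)
          have h10 := SAlg.Reach.step hm (h8.trans h4)
          rw [h9] at h10
          have h11 : n' = n := by
            rw [List.tail_cons, List.length_append, List.length_singleton] at h6
            omega
          subst h11
          exact ih _ h10 h5 h6 h7
        · exact ⟨m, hm, h4⟩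
    obtain ⟨m₀, hm₀, hm₀'⟩ := k1 _ [] SAlg.Reach.start (by simp) (by simp) (hM₁ y)
    have k2 : ∀ s, M.Reach B (F y) s →
        ∃ m, (comb M₁.poly M).Reach B y m ∧ dec M₁.D y m = true :: pairBits (F y) s := by
      intro s hs
      induction hs with
      | start => exact ⟨m₀, hm₀, hm₀'⟩
      | @step s q hs hq ih =>
        obtain ⟨m, h1, h2⟩ := ih
        obtain ⟨h3, h4⟩ := act_of_memory M₁.poly M h2
        have h5 := SAlg.Reach.step h1 (h3.trans hq)
        rw [h4] at h5
        refine ⟨_, h5, ?_⟩
        unfold dec
        rw [if_pos (by simp)]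
    obtain ⟨s, z, h1, h2, h3⟩ := (hM (F y)).2
    obtain ⟨m, h4, h5⟩ := k2 s h1
    exact ⟨m, z, h4, ((act_of_memory M₁.poly M h5).1).trans h2, h3⟩

end Pool.Agent.J6H49.ES
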