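import Pool.Agent.J6H49.ES.Thin
import Pool.Agent.J6H49.ES.Incl
import Pool.Agent.H622R2.Exp.YAux

/-!
# Everything above polynomial collapses
-/

set_option autoImplicit false

namespace Pool.Agent.J6H49.ES

open Pool.Agent.NPC Pool.Agent.H628R3.RO Filter Pool.Agent.J6H49.OP Pool.Agent.J6H49.IP
open Pool.Agent.J6H54.RO
open Pool.Agent.H620R2.Gauge (SAlg IsPSPACE)
open Pool.Agent.H622R2 (poly_pairBits)
open Pool.Agent.TH678.GC (join)
open Pool.Agent.TH678.RS (bt)
open Pool.Agent.Y626.WX (Cp)
open Pool.Agent.J6H49.PHC (oracle)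

/-- the `D`-th root, rounded down -/
def rt (D m : ℕ) : ℕ := ((List.range m).filter fun j => decide ((j + 1) ^ D ≤ m)).length

theorem filter_range_lt {n m : ℕ} (h : n ≤ m) :
    (List.range m).filter (fun j => decide (j < n)) = List.range n := by
  obtain ⟨k, rfl⟩ := Nat.exists_eq_add_of_le h
  rw [List.range_add, List.filter_append]
  have e1 : (List.range n).filter (fun j => decide (j < n)) = List.range n := by
    rw [List.filter_eq_self]
    intro t ht
    simpa using List.mem_range.1 ht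
  have e2 : ((List.range k).map (n + ·)).filter (fun j => decide (j < n)) = [] := by
    rw [List.filter_eq_nil_iff]
    intro t ht
    obtain ⟨u, -, rfl⟩ := List.mem_map.1 ht
    simp
  rw [e1, e2, List.append_nil]

theorem rt_pow {D N : ℕ} (hD : D ≠ 0) : rt D (N ^ D) = N := by
  unfold rt
  have h1 : (fun j => decide ((j + 1) ^ D ≤ N ^ D)) = fun j => decide (j < N) := by
    funext j
    apply decide_eq_decide.2
    rw [Nat.pow_le_pow_iff_left hD]
    exact Nat.succ_le_iff
  rw [h1, filter_range_lt (Nat.le_self_pow hD N), List.length_range]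

theorem u_rt {α : Type} [TEnc α] {m : α → ℕ} (hm : UPoly m) (D : ℕ) :
    UPoly (fun a => rt D (m a)) := by
  have h1 : Poly (fun p : α × ℕ => p.1) := Poly.fst Poly.id
  have h2 : Poly (fun p : α × ℕ => p.2) := Poly.snd Poly.id
  have h3 : UPoly (fun p : α × ℕ => min p.2 (m p.1)) :=
    UPoly.of_le (Poly.min h2 ((hm.comp h1).toPoly)) (hm.comp h1) fun p => min_le_right _ _
  have h4 : UPoly (fun p : α × ℕ => (min p.2 (m p.1) + 1) ^ D) := by
    have h := UPoly.eval h3 ((Polynomial.X + 1) ^ D)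
    simpa using h
  have h5 : Poly (fun a => (List.range (m a)).filter fun j =>
      decide ((min j (m a) + 1) ^ D ≤ m a)) :=
    NPC.Poly.filter (p := fun a j => decide ((min j (m a) + 1) ^ D ≤ m a)) hm.range
      (Poly.decide_le h4.toPoly (hm.comp h1).toPoly)
  refine u_congr (UPoly.length h5) fun a => ?_
  unfold rt
  congr 1
  apply List.filter_congr
  intro j hj
  rw [List.mem_range] at hj
  rw [min_eq_left hj.le]

theorem p_pin {α : Type} [TEnc α] {x : α → List Bool} {a b c : α → ℕ} (hx : Poly x)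
    (ha : UPoly a) (hb : UPoly b) (hc : UPoly c) : Poly (fun z => pin (x z) (a z, b z, c z)) :=
  poly_pairBits hx (p_pos ha hb (p_replicate hc true))

/-- one question in `P` -/
theorem isP_ask {B T : Oracle} {w : List Bool} (hw : ∀ x, B (w ++ x) = T x)
    {Q : List Bool → List Bool} (hQ : Poly Q) : IsP B {z | T (Q z) = true} := by
  refine ⟨fun z => [B (w ++ Q z)], ?_, fun x => ?_⟩
  · exact IsFP.tt (Q := fun z => [w ++ Q z]) (H := fun p => p.2)
      (Poly.cons (Poly.append (NPC.Poly.const w) hQ) (NPC.Poly.const [])) (Poly.snd Poly.id)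
  · show T (Q x) = true ↔ [B (w ++ Q x)] = [true]
    rw [hw]
    simp

variable {g : ℕ → SAlg × Polynomial ℕ} {S : ℕ → Polynomial ℕ} {Φ : Oracle → Oracle}
  {α : ℕ → ℕ}

theorem Thin.exact {B T : Oracle} {w : List Bool} (hw : ∀ x, B (w ++ x) = T x) {t : ℕ → ℕ}
    (hg : Function.Surjective g) (hc : Cp g S (bt α) Φ) (hT : Thin g S t B T) :
    CollapsedAbove t B := by
  refine collapsedAbove_of fun N hN hN' L hL => ?_
  obtain ⟨c, L', hL', hx⟩ := hL
  have hp : Poly (fun y : List Bool => pairBits (unpair y).1 ((unpair y).2.drop 2)) :=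
    poly_pairBits (Poly.fst poly_unpair) (p_drop (Poly.snd poly_unpair) (UPoly.const 2))
  obtain ⟨e, he⟩ := hT.code hg hc (hL'.precomp hp)
  obtain ⟨d, hd1, hd⟩ := Pool.Agent.H622R2.Exp.YAux.poly_bound (S e)
  obtain ⟨n₀, hn₀⟩ := eventually_atTop.1 hN'
  set K := ∑ n ∈ Finset.range n₀, t n with hK
  set D := c + (c + 3) * d + K + 1 with hD
  have hu : UPoly (fun z : List Bool => (unpair z).2.length) :=
    UPoly.length (Poly.snd poly_unpair)
  have hr := u_rt hu D
  have hq : Poly (fun z : List Bool => pos e (unpair z).2.length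
      (pin (unpair z).1 (0, 0, min (rt D (unpair z).2.length ^ c) z.length))) := by
    refine p_pos (UPoly.const e) hu (p_pin (Poly.fst poly_unpair) (UPoly.const 0)
      (UPoly.const 0) (u_min ?_ (UPoly.length Poly.id)))
    have h := UPoly.eval hr (Polynomial.X ^ c)
    simpa using h
  refine ⟨D, _, isP_ask hw hq, fun x => ?_⟩
  show _ ↔ T _ = true
  simp only [unpair_pairBits, List.length_replicate]
  set n := x.length with hn
  have hNn := hN n
  have hD0 : D ≠ 0 := by omega
  rw [rt_pow hD0, min_eq_left]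
  swap
  · rw [length_pairBits, List.length_replicate]
    have : N n ^ c ≤ N n ^ D := Nat.pow_le_pow_right (by omega) (by omega)
    omega
  have h1 : (pin x (0, 0, N n ^ c)).length + 2 ≤ N n ^ (c + 3) := by
    rw [length_pin, ← hn]
    show 2 * n + 1 + (0 + 0 + N n ^ c + 2) + 2 ≤ N n ^ (c + 3)
    have e1 : N n ^ (c + 3) = N n ^ c * (N n * (N n * N n)) := by ring
    rw [e1]
    have h3 : 1 ≤ N n ^ c := Nat.one_le_pow _ _ (by omega)
    obtain ⟨b, hb⟩ : ∃ b, N n ^ c = b + 1 := ⟨N n ^ c - 1, by omega⟩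
    rw [hb]
    have h4 : 2 * N n ≤ N n * N n := Nat.mul_le_mul_right _ (by omega)
    have h5 : 2 * (N n * N n) ≤ N n * (N n * N n) := Nat.mul_le_mul_right _ (by omega)
    have h6 : (b + 1) * (N n * (N n * N n)) = b * (N n * (N n * N n)) + N n * (N n * N n) := by
      ring
    have h7 : b ≤ b * (N n * (N n * N n)) := Nat.le_mul_of_pos_right _
      (Nat.mul_pos (by omega) (Nat.mul_pos (by omega) (by omega)))
    omega
  have h2 : (S e).eval (pin x (0, 0, N n ^ c)).length ≤ N n ^ D := by
    calc (S e).eval (pin x (0, 0, N n ^ c)).length ≤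
        ((pin x (0, 0, N n ^ c)).length + 2) ^ d := hd _
      _ ≤ (N n ^ (c + 3)) ^ d := Nat.pow_le_pow_left h1 d
      _ = N n ^ ((c + 3) * d) := by rw [← pow_mul]
      _ ≤ N n ^ D := Nat.pow_le_pow_right (by omega) (by omega)
  have h3 : t n ≤ N n ^ D := by
    rcases le_or_gt n₀ n with h | h
    · exact (hn₀ n h).trans (Nat.le_self_pow hD0 _)
    · have h4 : t n ≤ K := Finset.single_le_sum (f := fun n => t n)
        (fun _ _ => Nat.zero_le _) (Finset.mem_range.2 h)
      calc t n ≤ K := h4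
        _ ≤ 2 ^ K := Nat.lt_two_pow_self.le
        _ ≤ N n ^ K := Nat.pow_le_pow_left (by omega) _
        _ ≤ N n ^ D := Nat.pow_le_pow_right (by omega) (by omega)
  rw [hx x, he x _ _ h2 h3]
  show _ ↔ pairBits (unpair (pin x (0, 0, N n ^ c))).1
    ((unpair (pin x (0, 0, N n ^ c))).2.drop 2) ∈ L'
  unfold pin
  rw [unpair_pairBits]
  rfl

end Pool.Agent.J6H49.ES
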