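import Pool.Agent.J6H49.ES.Exact

/-!
# Everything above polynomial collapses and `NP` is far from `coNP`
-/

set_option autoImplicit false

namespace Pool.Agent.J6H49.ES

open Pool.Agent.NPC Pool.Agent.H628R3.RO Filter Pool.Agent.J6H49.OP Pool.Agent.J6H49.IP
open MeasureTheory Pool.Agent.J6H54.RO
open Pool.Agent.H620R2.Gauge (SAlg IsPSPACE)
open Pool.Agent.TH678.GC (join)
open Pool.Agent.TH678.RS (bt)
open Pool.Agent.Y626.WX (Cp exists_cp)
open Pool.Agent.J6H49.PHC (oracle)

/-- a slow function -/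
def sl (n : ℕ) : ℕ := n

theorem main (t : ℕ → ℕ) (ht : Superpoly t) (C : Oracle) :
    ∃ O : Oracle → Oracle,
      (∀ A, CollapsedAbove t (O A) ∧ Contains (O A) A ∧ Contains (O A) C) ∧
      ∀ᵐ A ∂randomOracle, ∃ L : Set (List Bool), IsNP (O A) L ∧ ∀ T : Oracle, SubexpDense T →
        ¬ IsIPio (join (O A) T) Lᶜ := by
  obtain ⟨g, hg⟩ := Pool.Agent.H620R2.Gauge.CC.exists_enum
  obtain ⟨S, Φ, hc⟩ := exists_cp g (bt (slow2 id))
  choose T hT using fun A => exists_thin hc t C A
  refine ⟨fun A => oracle Φ (join C (T A)) A, fun A => ⟨?_, ⟨[false, false], fun x => rfl⟩,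
    ⟨[false, true, false], fun x => rfl⟩⟩, ?_⟩
  · exact (hT A).exact (w := [false, true, true]) (fun x => rfl) hg hc
  · filter_upwards [ae_main2 hc (slow2_mono monotone_id) (slow2_tendsto tendsto_id) C] with A hA
    exact ⟨HL A, isNP_lift [false, false] (fun x => rfl) (isNP_HL A),
      fun T' hT' => hA (T A) T' ((hT A).dense ht) hT'⟩

end Pool.Agent.J6H49.ES
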