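import Pool.Agent.J6H49.ES.Test

/-!
# `p`-optimal proof systems
-/

set_option autoImplicit false

namespace Pool.Agent.J6H49.ES

open Pool.Agent.NPC Pool.Agent.H628R3.RO Filter Pool.Agent.J6H49.OP Pool.Agent.J6H49.IP
open Pool.Agent.J6H54.RO
open Pool.Agent.H620R2.Gauge (SAlg IsPSPACE)
open Pool.Agent.H622R2 (poly_pairBits poly_of_polyTime)
open Pool.Agent.TH678.RS (bt)
open Pool.Agent.Y626.WX (Cp)

/-- the value is taken if the condition is satisfied -/
theorem isFP_guard {B : Oracle} {F G : List Bool → List Bool} (hF : IsFP B F) (hG : IsFP B G)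
    (x₀ : List Bool) : IsFP B (fun z => if F z = [true] then G z else x₀) :=
  IsFP.seq hF hG (φ := fun p => p.1) (ψ := fun p => if p.2.1 = [true] then p.2.2 else x₀)
    (Poly.fst Poly.id) (Poly.ite (Poly.decide_eq (Poly.fst (Poly.snd Poly.id))
      (NPC.Poly.const _)) (Poly.snd (Poly.snd Poly.id)) (NPC.Poly.const _))

/-- the guard is computed in polynomial time -/
theorem isFP_guard' {B : Oracle} {c : List Bool → Bool} {G : List Bool → List Bool} (hc : Poly c)
    (hG : IsFP B G) (x₀ : List Bool) : IsFP B (fun z => if c z = true then G z else x₀) := by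
  have h := isFP_guard (F := fun z => [c z]) (IsFP.of_poly (Poly.cons hc (NPC.Poly.const []))) hG x₀
  refine (congrArg (IsFP B) (funext fun z => ?_)).mp h
  simp

section

variable {B : Oracle} {w : List Bool} {Dn : ℕ → List Bool → List Bool}

/-- Soundness of an algorithm, for a given length, is tested in polynomial time. -/
theorem exists_sound (hw : ∀ x, B (w ++ x) = utab Dn x) (hB : Tests B) {L : Set (List Bool)}
    (hL : IsPSPACE B L) {x₀ : List Bool} (hx₀ : x₀ ∈ L) : ∃ τ : ℕ → ℕ → ℕ → Bool,
      (∀ i n c, τ i n c = true ↔ ∀ u : List Bool, u.length = n → ufun Dn B (inp i u c) ∈ L) ∧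
      ∀ a b c : List Bool → ℕ, UPoly a → UPoly b → UPoly c →
        IsFP B (fun z => [τ (a z) (b z) (c z)]) := by
  have h1 : Poly (fun v : List Bool => (unpair v).1) := Poly.fst poly_unpair
  have h2 : Poly (fun v : List Bool => (unpair v).2) := Poly.snd poly_unpair
  have hF : IsFP B (fun v => if decide ((unpair v).1.length = nb (unpair v).2) = true then
      ufun Dn B (inp (na (unpair v).2) (unpair v).1 (nc (unpair v).2)) else x₀) := by
    refine isFP_guard' (Poly.decide_eq (UPoly.toPoly (UPoly.length h1)) (UPoly.toPoly (u_nb h2)))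
      ?_ x₀
    exact IsFP.comp (isFP_ufun hw) (IsFP.of_poly (p_inp (u_na h2) h1 (u_nc h2)))
  have hS := ((isPSPACE_comp hL hF).compl.exists_short (β := fun y => nb y)
    (u_nb Poly.id)).compl
  obtain ⟨τ, hτ, hτ'⟩ := hB _ hS
  refine ⟨τ, fun i n c => ?_, hτ'⟩
  rw [hτ]
  obtain ⟨e1, e2, e3⟩ := nums_pin [] i n c
  simp only [Set.mem_compl_iff, Set.mem_setOf_eq, not_exists, not_and, not_not, unpair_pairBits,
    decide_eq_true_eq, e1, e2, e3]
  constructor
  · intro h u hu
    have h3 := h u hu.le
    rwa [if_pos hu] at h3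
  · intro h u _
    split_ifs with h3
    · exact h u h3
    · exact hx₀

/-- **Every nonempty problem in polynomial space which has a proof system has a `p`-optimal proof
system.** -/
theorem exists_pOptimal (hw : ∀ x, B (w ++ x) = utab Dn x)
    (hDn : ∀ D, PolyTime D → ∃ i, Dn i = D) (hB : Tests B) {L : Set (List Bool)}
    (hL : IsPSPACE B L) {Q₀ : List Bool → List Bool} (hQ₀ : IsProofSystem B L Q₀) :
    ∃ P, IsPOptimal B L P := by
  set x₀ : List Bool := Q₀ [] with hx
  have hx₀ : x₀ ∈ L := by
    rw [← hQ₀.2]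
    exact ⟨[], rfl⟩
  obtain ⟨τ, hτ, hτ'⟩ := exists_sound hw hB hL hx₀
  have h1 : Poly (fun v : List Bool => (unpair v).1) := Poly.fst poly_unpair
  have h2 : Poly (fun v : List Bool => (unpair v).2) := Poly.snd poly_unpair
  set P : List Bool → List Bool := fun z =>
    if [τ (unpair z).1.length (unpair (unpair z).2).1.length (unpair (unpair z).2).2.length] =
      [true] then ufun Dn B (inp (unpair z).1.length (unpair (unpair z).2).1
        (unpair (unpair z).2).2.length) else x₀ with hP
  have hPF : IsFP B P := by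
    refine isFP_guard (hτ' _ _ _ (UPoly.length h1) (UPoly.length (h1.comp h2))
      (UPoly.length (h2.comp h2))) ?_ x₀
    exact IsFP.comp (isFP_ufun hw) (IsFP.of_poly (p_inp (UPoly.length h1) (h1.comp h2)
      (UPoly.length (h2.comp h2))))
  have hPL : ∀ z, P z ∈ L := by
    intro z
    simp only [hP]
    split_ifs with h
    · rw [List.cons.injEq, and_iff_left rfl, hτ] at h
      exact h _ rfl
    · exact hx₀
  have hsim : ∀ Q, IsProofSystem B L Q → ∃ h, IsFP B h ∧ ∀ u, P (h u) = Q u := by
    intro Q hQ
    obtain ⟨i, b, hi⟩ := ufun_spec B hDn hQ.1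
    refine ⟨fun u => inp i u (b.eval u.length), IsFP.of_poly (p_inp (UPoly.const i) Poly.id
      (UPoly.eval (UPoly.length Poly.id) b)), fun u => ?_⟩
    have e : P (inp i u (b.eval u.length)) =
        if [τ i u.length (b.eval u.length)] = [true] then
          ufun Dn B (inp i u (b.eval u.length)) else x₀ := by
      simp only [hP]
      unfold inp
      simp only [unpair_pairBits, List.length_replicate]
    rw [e, if_pos]
    · exact hi u _ le_rfl
    · rw [List.cons.injEq, and_iff_left rfl, hτ]
      intro v hv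
      rw [hi v _ (by rw [hv]), ← hQ.2]
      exact ⟨v, rfl⟩
  refine ⟨P, ⟨hPF, ?_⟩, hsim⟩
  apply Set.Subset.antisymm
  · rintro x ⟨z, rfl⟩
    exact hPL z
  · intro x hx
    rw [← hQ₀.2] at hx
    obtain ⟨u, rfl⟩ := hx
    obtain ⟨h, -, h3⟩ := hsim Q₀ hQ₀
    exact ⟨h u, h3 u⟩

end

/-- **Every nonempty problem in polynomial space has a proof system.** -/
theorem Thin.exists_proofSystem {g : ℕ → SAlg × Polynomial ℕ} {S : ℕ → Polynomial ℕ}
    {Φ : Oracle → Oracle} {β : ℕ → ℕ} {B T : Oracle} {w : List Bool}
    (hw : ∀ x, B (w ++ x) = T x) {t : ℕ → ℕ} (hg : Function.Surjective g)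
    (hc : Cp g S (bt β) Φ) (hT : Thin g S t B T) {L : Set (List Bool)} (hL : IsPSPACE B L)
    (hne : L.Nonempty) : ∃ Q, IsProofSystem B L Q := by
  obtain ⟨x₀, hx₀⟩ := hne
  have h1 : Poly (fun v : List Bool => (unpair v).1) := Poly.fst poly_unpair
  have h2 : Poly (fun v : List Bool => (unpair v).2) := Poly.snd poly_unpair
  obtain ⟨e, he⟩ := hT.code hg hc (hL.precomp h1)
  set F : List Bool → List Bool := fun z =>
    [B (w ++ pos e (unpair z).2.length (pin (unpair z).1 (0, 0, 0)))] with hF
  have hFF : IsFP B F := by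
    refine IsFP.tt (A := B) (Q := fun z => [w ++ pos e (unpair z).2.length
      (pin (unpair z).1 (0, 0, 0))]) (H := fun p => p.2) ?_ (Poly.snd Poly.id)
    exact Poly.cons (Poly.append (NPC.Poly.const w) (p_pos (UPoly.const e) (UPoly.length h2)
      (p_pin h1 (UPoly.const 0) (UPoly.const 0) (UPoly.const 0)))) (NPC.Poly.const [])
  refine ⟨fun z => if F z = [true] then
    (if ((S e).eval (pin (unpair z).1 (0, 0, 0)).length ≤ (unpair z).2.length) then
      (unpair z).1 else x₀) else x₀, ?_, ?_⟩
  · refine isFP_guard hFF (IsFP.of_poly (Poly.ite (Poly.decide_le ?_ ?_) h1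
      (NPC.Poly.const _))) x₀
    · exact (UPoly.eval (UPoly.length (p_pin h1 (UPoly.const 0) (UPoly.const 0)
        (UPoly.const 0))) (S e)).toPoly
    · exact (UPoly.length h2).toPoly
  · apply Set.Subset.antisymm
    · rintro x ⟨z, rfl⟩
      dsimp only
      split_ifs with h3 h4
      · rw [hF] at h3
        simp only [List.cons.injEq, and_true] at h3
        rw [hw, hT.at] at h3
        have h5 := (he (unpair z).1 (0, 0, 0) (unpair z).2.length h3.1 h3.2.1).1 (hT.at.2 h3)
        have h6 : (unpair (pin (unpair z).1 (0, 0, 0))).1 ∈ L := h5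
        unfold pin at h6
        rwa [unpair_pairBits] at h6
      · exact hx₀
      · exact hx₀
    · intro x hx
      set k := (S e).eval (pin x (0, 0, 0)).length + t x.length with hk
      refine ⟨pairBits x (List.replicate k true), ?_⟩
      simp only [hF, unpair_pairBits, List.length_replicate]
      have h5 : T (pos e k (pin x (0, 0, 0))) = true := by
        refine (he x (0, 0, 0) k (by omega) (by omega)).2 ?_
        show (unpair (pin x (0, 0, 0))).1 ∈ L
        unfold pin
        rwa [unpair_pairBits]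
      rw [hw, h5, if_pos rfl, if_pos (by omega)]

end Pool.Agent.J6H49.ES
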