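import Pool.Agent.J6H49.ES.World

/-!
# Complete search problems
-/

set_option autoImplicit false

namespace Pool.Agent.J6H49.ES

open Pool.Agent.NPC Pool.Agent.H628R3.RO Filter Pool.Agent.J6H49.OP Pool.Agent.J6H49.IP
open Pool.Agent.J6H54.RO
open Pool.Agent.H620R2.Gauge (SAlg IsPSPACE)
open Pool.Agent.H622R2 (poly_pairBits poly_of_polyTime polyTime_of_poly_list)

theorem isPSPACE_of_isP {B : Oracle} {L : Set (List Bool)} (h : Pool.Agent.J6H49.IP.IsP B L) :
    IsPSPACE B L := isPSPACE_of_isNP (isNP_of_isP h)

/-- the solutions, in the sense of the universal algorithm -/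
def Sol (Dn : ℕ → List Bool → List Bool) (B : Oracle) (i c : ℕ) (x y : List Bool) : Prop :=
  y.length ≤ c ∧ ufun Dn B (inp i (pairBits x y) c) = [true]

section

variable {B : Oracle} {w : List Bool} {Dn : ℕ → List Bool → List Bool}

/-- Totality, for a given length, is tested in polynomial time. -/
theorem exists_total (hw : ∀ x, B (w ++ x) = utab Dn x) (hB : Tests B) :
    ∃ τ : ℕ → ℕ → ℕ → Bool,
      (∀ i n c, τ i n c = true ↔ ∀ x : List Bool, x.length = n → ∃ y, Sol Dn B i c x y) ∧
      ∀ a b c : List Bool → ℕ, UPoly a → UPoly b → UPoly c →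
        IsFP B (fun z => [τ (a z) (b z) (c z)]) := by
  have h1 : Poly (fun v : List Bool => (unpair v).1) := Poly.fst poly_unpair
  have h2 : Poly (fun v : List Bool => (unpair v).2) := Poly.snd poly_unpair
  -- `v = ⟨y, ⟨x, numbers⟩⟩`
  have hP : Pool.Agent.J6H49.IP.IsP B {v | (if decide ((unpair (unpair v).2).1.length =
      nb (unpair (unpair v).2).2) = true then ufun Dn B (inp (na (unpair (unpair v).2).2)
        (pairBits (unpair (unpair v).2).1 (unpair v).1) (nc (unpair (unpair v).2).2))
      else [true]) = [true]} := by
    refine ⟨_, isFP_guard' (Poly.decide_eq (UPoly.toPoly (UPoly.length (h1.comp h2)))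
      (UPoly.toPoly (u_nb (h2.comp h2)))) ?_ [true], fun x => Iff.rfl⟩
    exact IsFP.comp (isFP_ufun hw) (IsFP.of_poly (p_inp (u_na (h2.comp h2))
      (poly_pairBits (h1.comp h2) h1) (u_nc (h2.comp h2))))
  have hS := (((isPSPACE_of_isP hP).exists_short (β := fun v => nc (unpair v).2)
    (u_nc h2)).compl.exists_short (β := fun y => nb y) (u_nb Poly.id)).compl
  obtain ⟨τ, hτ, hτ'⟩ := hB _ hS
  refine ⟨τ, fun i n c => ?_, hτ'⟩
  rw [hτ]
  obtain ⟨e1, e2, e3⟩ := nums_pin [] i n c
  simp only [Set.mem_compl_iff, Set.mem_setOf_eq, unpair_pairBits, decide_eq_true_eq, e1, e2, e3,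
    Sol]
  constructor
  · intro h x hx
    by_contra hcon
    refine h ⟨x, hx.le, ?_⟩
    rintro ⟨y, h3, h4⟩
    rw [if_pos hx] at h4
    exact hcon ⟨y, h3, h4⟩
  · rintro h ⟨x, -, h2⟩
    apply h2
    by_cases h3 : x.length = n
    · obtain ⟨y, h4, h5⟩ := h x h3
      exact ⟨y, h4, by rw [if_pos h3]; exact h5⟩
    · exact ⟨[], by simp, by rw [if_neg h3]⟩

/-- An algorithm which stops immediately has the output `[]`. -/
theorem ufun_stop {i : ℕ} {x : List Bool} {c : ℕ} (h : Dn i (pairBits x []) = [true]) :
    ufun Dn B (inp i x c) = [] := by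
  have hl := length_inp i x c
  have h1 : uact Dn (inp i x c) [] = [true] := by
    unfold uact
    have e1 : (unpair (inp i x c)).1.length = i := by
      unfold inp
      rw [unpair_pairBits, List.length_replicate]
    have e2 : (unpair (unpair (inp i x c)).2).1 = x := by
      unfold inp
      rw [unpair_pairBits]
      dsimp only
      rw [unpair_pairBits]
    rw [e1, e2, h, List.take_of_length_le]
    rw [List.length_singleton, hl]
    omega
  have h3 : ustep Dn B (pairBits (inp i x c) []) = pairBits (inp i x c) [] := by
    unfold ustep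
    simp only [unpair_pairBits]
    rw [h1, if_neg (by simp)]
  have h4 := Pool.Agent.TH678.PN.iterate_fixed h3 (inp i x c).length
  unfold ufun
  simp only [h4, unpair_pairBits]
  rw [h1, if_neg (by simp)]
  rfl

/-- **There is a complete total search problem.** -/
theorem exists_complete (hw : ∀ x, B (w ++ x) = utab Dn x)
    (hDn : ∀ D, PolyTime D → ∃ i, Dn i = D) (hB : Tests B) :
    ∃ R, IsTFNP B R ∧ ∀ R', IsTFNP B R' → RedSearch B R' R := by
  obtain ⟨τ, hτ, hτ'⟩ := exists_total hw hB
  have h1 : Poly (fun v : List Bool => (unpair v).1) := Poly.fst poly_unpair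
  have h2 : Poly (fun v : List Bool => (unpair v).2) := Poly.snd poly_unpair
  -- the numbers of an instance `z = ⟨1^i, ⟨x, 1^c⟩⟩`
  set I : List Bool → ℕ := fun z => (unpair z).1.length with hI
  set X : List Bool → List Bool := fun z => (unpair (unpair z).2).1 with hX
  set Cn : List Bool → ℕ := fun z => (unpair (unpair z).2).2.length with hCn
  have hIu : UPoly I := UPoly.length h1
  have hXp : Poly X := h1.comp h2
  have hCu : UPoly Cn := UPoly.length (h2.comp h2)
  have hCle : ∀ z, Cn z ≤ z.length := by
    intro z
    have e1 := Pool.Agent.H593R3.DST.unpair_len z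
    have e2 := Pool.Agent.H593R3.DST.unpair_len (unpair z).2
    simp only [hCn]
    omega
  set R : List Bool → List Bool → Prop := fun z y =>
    y.length ≤ z.length ∧ (τ (I z) (X z).length (Cn z) = true → Sol Dn B (I z) (Cn z) (X z) y)
    with hR
  refine ⟨R, ⟨⟨fun v => if [τ (I (unpair v).1) (X (unpair v).1).length (Cn (unpair v).1)] = [true]
      then (if decide ((unpair v).2.length ≤ Cn (unpair v).1) = true then
        ufun Dn B (inp (I (unpair v).1) (pairBits (X (unpair v).1) (unpair v).2)
          (Cn (unpair v).1)) else []) else [true], Polynomial.X, ?_, fun z y => ?_⟩,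
      fun z => ?_⟩, fun R' hR' => ?_⟩
  · refine isFP_guard (hτ' _ _ _ (hIu.comp h1) (UPoly.length (hXp.comp h1)) (hCu.comp h1)) ?_ _
    refine isFP_guard' (Poly.decide_le (UPoly.toPoly (UPoly.length h2))
      (UPoly.toPoly (hCu.comp h1))) ?_ _
    exact IsFP.comp (isFP_ufun hw) (IsFP.of_poly (p_inp (hIu.comp h1)
      (poly_pairBits (hXp.comp h1) h2) (hCu.comp h1)))
  · rw [Polynomial.eval_X]
    simp only [hR, unpair_pairBits, Sol, decide_eq_true_eq]
    refine and_congr_right fun _ => ?_
    by_cases h3 : τ (I z) (X z).length (Cn z) = true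
    · rw [if_pos (by rw [h3])]
      by_cases h4 : y.length ≤ Cn z
      · rw [if_pos h4]
        exact ⟨fun h => (h h3).2, fun h _ => ⟨h4, h⟩⟩
      · rw [if_neg h4]
        exact ⟨fun h => absurd (h h3).1 h4, fun h => by simp at h⟩
    · rw [if_neg (by simpa using h3)]
      exact ⟨fun _ => rfl, fun _ h => absurd h h3⟩
  · by_cases h3 : τ (I z) (X z).length (Cn z) = true
    · obtain ⟨y, h4⟩ := (hτ _ _ _).1 h3 (X z) rfl
      exact ⟨y, h4.1.trans (hCle z), fun _ => h4⟩
    · exact ⟨[], by simp, fun h => absurd h h3⟩
  · -- the reduction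
    obtain ⟨⟨V, p, ⟨M, hM⟩, hx⟩, htot⟩ := hR'
    set D' : List Bool → List Bool := fun v =>
      if (unpair (unpair v).1).2.length ≤ p.eval (unpair (unpair v).1).1.length then M.D v
      else [true] with hD'
    have hD'p : PolyTime D' := by
      apply polyTime_of_poly_list
      refine Poly.ite (Poly.decide_le (UPoly.toPoly (UPoly.length (h2.comp h1)))
        (UPoly.toPoly (UPoly.eval (UPoly.length (h1.comp h1)) p)))
        (poly_of_polyTime M.poly) (NPC.Poly.const _)
    obtain ⟨i, hi⟩ := hDn D' hD'p
    obtain ⟨b, hb⟩ := act_length M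
    -- the polynomial for the lengths
    set L : Polynomial ℕ := 2 * Polynomial.X + 1 + p with hL
    set c : Polynomial ℕ := (b + M.p).comp L + p with hc
    have hLe : ∀ n, L.eval n = 2 * n + 1 + p.eval n := by
      intro n
      simp [hL]
    have hce : ∀ n, c.eval n = b.eval (L.eval n) + M.p.eval (L.eval n) + p.eval n := by
      intro n
      simp [hc]
    -- what the universal algorithm does
    have hU : ∀ x y : List Bool, ufun Dn B (inp i (pairBits x y) (c.eval x.length)) = [true] ↔
        R' x y := by
      intro x y
      rw [hx x y]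
      by_cases h3 : y.length ≤ p.eval x.length
      · rw [and_iff_right h3]
        set u := pairBits x y with hu
        have hul : u.length ≤ L.eval x.length := by
          rw [hu, length_pairBits, hLe]
          omega
        have hDa : ∀ a, D' (pairBits u a) = M.D (pairBits u a) := by
          intro a
          simp only [hD', hu, unpair_pairBits]
          rw [if_pos h3]
        set M' : Alg := ⟨D', hD'p, M.p⟩ with hM'
        have hrun : ∀ (n : ℕ) (a : List Bool), M'.run B u n a = M.run B u n a := by
          intro n
          induction n with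
          | zero => intro a; rfl
          | succ n ih =>
            intro a
            have e : M'.D (pairBits u a) = M.D (pairBits u a) := hDa a
            rcases h : M.D (pairBits u a) with _ | ⟨b, q⟩
            · simp only [Alg.run, e, h]
            · cases b
              · simp only [Alg.run, e, h, ih]
              · simp only [Alg.run, e, h]
        have hcl := length_inp i u (c.eval x.length)
        have h4 := eval_mono b hul
        have h5 := eval_mono M.p hul
        have h6 := hce x.length
        have h7 := ufun_run B Dn (M := M') (c := c.eval x.length) hi (x := u)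
          (fun a ha => by
            have h8 := hb u a ha
            show (D' (pairBits u a)).length ≤ _
            rw [hDa]
            omega) (M.p.eval u.length) [] (by simp [hM']) (by rw [hrun]; exact hM u)
            (inp i u (c.eval x.length)).length (by omega)
        obtain ⟨h, h8, -⟩ := ustep_len B Dn (inp i u (c.eval x.length))
          (inp i u (c.eval x.length)).length
        unfold ufun
        simp only [h8, unpair_pairBits] at h7 ⊢
        rw [if_neg h7.1, h7.2]
      · have h4 : Dn i (pairBits (pairBits x y) []) = [true] := by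
          rw [hi]
          simp only [hD', unpair_pairBits]
          rw [if_neg h3]
        rw [ufun_stop h4]
        constructor
        · intro h
          simp at h
        · exact fun h => absurd h.1 h3
    refine ⟨fun x => inp i x (c.eval x.length), fun v => (unpair v).2,
      IsFP.of_poly (p_inp (UPoly.const i) Poly.id (UPoly.eval (UPoly.length Poly.id) c)),
      IsFP.of_poly h2, fun x y hy => ?_⟩
    show R' x (unpair (pairBits x y)).2
    rw [unpair_pairBits]
    dsimp only
    have e1 : I (inp i x (c.eval x.length)) = i := by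
      simp only [hI, inp, unpair_pairBits, List.length_replicate]
    have e2 : X (inp i x (c.eval x.length)) = x := by
      simp only [hX, inp, unpair_pairBits]
    have e3 : Cn (inp i x (c.eval x.length)) = c.eval x.length := by
      simp only [hCn, inp, unpair_pairBits, List.length_replicate]
    simp only [hR, e1, e2, e3] at hy
    refine (hU x y).1 (hy.2 ((hτ _ _ _).2 fun x' hx' => ?_)).2
    obtain ⟨y', hy'⟩ := htot x'
    refine ⟨y', ?_, ?_⟩
    · have h3 := ((hx x' y').1 hy').1
      rw [hx'] at h3
      have := hce x.length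
      omega
    · rw [← hx']
      exact (hU x' y').2 hy'

end

theorem Uni.complete {B : Oracle} (h : Uni B) :
    ∃ R, IsTFNP B R ∧ ∀ R', IsTFNP B R' → RedSearch B R' R := by
  obtain ⟨w, Dn, hw, hDn⟩ := h.uni
  exact exists_complete hw hDn h.tests

end Pool.Agent.J6H49.ES
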