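import Pool.Agent.J6H49.ES.Comp

/-!
# Tests with three numbers in unary notation
-/

set_option autoImplicit false

namespace Pool.Agent.J6H49.ES

open Pool.Agent.NPC Pool.Agent.H628R3.RO Filter Pool.Agent.J6H49.OP Pool.Agent.J6H49.IP
open Pool.Agent.J6H54.RO
open Pool.Agent.H620R2.Gauge (SAlg IsPSPACE)
open Pool.Agent.H622R2 (poly_pairBits poly_of_polyTime)
open Pool.Agent.TH678.RS (bt)
open Pool.Agent.Y626.WX (Cp)

/-- the first number -/
def n1 (v : List Bool) : ℕ := (v.takeWhile id).length

/-- the rest -/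
def rs (v : List Bool) : List Bool := v.drop (n1 v + 1)

theorem n1_repl (a : ℕ) (v : List Bool) : n1 (List.replicate a true ++ false :: v) = a := by
  unfold n1
  rw [takeWhile_repl, List.length_replicate]

theorem rs_repl (a : ℕ) (v : List Bool) : rs (List.replicate a true ++ false :: v) = v := by
  unfold rs
  rw [n1_repl, List.drop_append, List.length_replicate]
  have e1 : a + 1 - a = 1 := by omega
  rw [e1]
  have e2 : (List.replicate a true).drop (a + 1) = [] :=
    List.drop_of_length_le (by rw [List.length_replicate]; omega)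
  rw [e2]
  rfl

/-- the three numbers -/
def na (y : List Bool) : ℕ := n1 (unpair y).2

/-- the three numbers -/
def nb (y : List Bool) : ℕ := n1 (rs (unpair y).2)

/-- the three numbers -/
def nc (y : List Bool) : ℕ := (rs (rs (unpair y).2)).length

theorem nums_pin (x : List Bool) (a b c : ℕ) :
    na (pin x (a, b, c)) = a ∧ nb (pin x (a, b, c)) = b ∧ nc (pin x (a, b, c)) = c := by
  unfold na nb nc pin
  rw [unpair_pairBits]
  dsimp only
  unfold pos
  rw [n1_repl, rs_repl, n1_repl, rs_repl, List.length_replicate]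
  exact ⟨rfl, rfl, rfl⟩

variable {α : Type} [TEnc α]

theorem u_n1 {v : α → List Bool} (hv : Poly v) : UPoly (fun a => n1 (v a)) :=
  UPoly.length (p_takeWhile hv)

theorem p_rs {v : α → List Bool} (hv : Poly v) : Poly (fun a => rs (v a)) :=
  p_drop hv (UPoly.add (u_n1 hv) (UPoly.const 1))

theorem u_na {y : α → List Bool} (hy : Poly y) : UPoly (fun a => na (y a)) :=
  u_n1 ((Poly.snd poly_unpair).comp hy)

theorem u_nb {y : α → List Bool} (hy : Poly y) : UPoly (fun a => nb (y a)) :=
  u_n1 (p_rs ((Poly.snd poly_unpair).comp hy))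

theorem u_nc {y : α → List Bool} (hy : Poly y) : UPoly (fun a => nc (y a)) :=
  UPoly.length (p_rs (p_rs ((Poly.snd poly_unpair).comp hy)))

theorem p_inp {i c : α → ℕ} {w : α → List Bool} (hi : UPoly i) (hw : Poly w) (hc : UPoly c) :
    Poly (fun a => inp (i a) (w a) (c a)) :=
  poly_pairBits (p_replicate hi true) (poly_pairBits hw (p_replicate hc true))

/-- The oracle `B` decides in polynomial time all properties in polynomial space of three numbers in
unary notation. -/
def Tests (B : Oracle) : Prop :=
  ∀ L : Set (List Bool), IsPSPACE B L → ∃ τ : ℕ → ℕ → ℕ → Bool,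
    (∀ a b c, τ a b c = true ↔ pin [] (a, b, c) ∈ L) ∧
    ∀ a b c : List Bool → ℕ, UPoly a → UPoly b → UPoly c →
      IsFP B (fun z => [τ (a z) (b z) (c z)])

theorem Thin.tests {g : ℕ → SAlg × Polynomial ℕ} {S : ℕ → Polynomial ℕ} {Φ : Oracle → Oracle}
    {β : ℕ → ℕ} {B T : Oracle} {w : List Bool} (hw : ∀ x, B (w ++ x) = T x) {t : ℕ → ℕ}
    (hg : Function.Surjective g) (hc : Cp g S (bt β) Φ) (hT : Thin g S t B T) : Tests B := by
  intro L hL
  obtain ⟨e, he⟩ := hT.code hg hc hL
  refine ⟨fun a b c => T (pos e ((S e).eval (a + b + c + 3) + t 0) (pin [] (a, b, c))),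
    fun a b c => ?_, fun a b c ha hb hc => ?_⟩
  · refine he [] (a, b, c) _ ?_ ?_
    · rw [length_pin]
      show (S e).eval (2 * ([] : List Bool).length + 1 + (a + b + c + 2)) ≤ _
      have e1 : 2 * ([] : List Bool).length + 1 + (a + b + c + 2) = a + b + c + 3 := by
        simp only [List.length_nil]
        omega
      rw [e1]
      omega
    · show t 0 ≤ _
      omega
  · have h1 : UPoly (fun z => (S e).eval (a z + b z + c z + 3) + t 0) :=
      UPoly.add (UPoly.eval (UPoly.add (UPoly.add (UPoly.add ha hb) hc) (UPoly.const 3)) (S e))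
        (UPoly.const _)
    have h2 : Poly (fun z => w ++ pos e ((S e).eval (a z + b z + c z + 3) + t 0)
        (pin [] (a z, b z, c z))) :=
      Poly.append (NPC.Poly.const w) (p_pos (UPoly.const e) h1
        (p_pin (NPC.Poly.const []) ha hb hc))
    have h3 := IsFP.tt (A := B) (Q := fun z => [w ++ pos e ((S e).eval (a z + b z + c z + 3) + t 0)
        (pin [] (a z, b z, c z))]) (H := fun p => p.2)
      (Poly.cons h2 (NPC.Poly.const [])) (Poly.snd Poly.id)
    refine (congrArg (IsFP B) (funext fun z => ?_)).mp h3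
    show [B (w ++ _)] = _
    rw [hw]

end Pool.Agent.J6H49.ES
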