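import Pool.Agent.J6H49.IP.Inside
import Pool.Agent.J6H49.ES.Defs

/-!
# Thin codes

Codes for polynomial space which are available only after a superpolynomial padding.
-/

set_option autoImplicit false

namespace Pool.Agent.J6H49.ES

open Pool.Agent.NPC Pool.Agent.H628R3.RO Filter Pool.Agent.J6H49.OP Pool.Agent.J6H49.IP
open Pool.Agent.J6H54.RO
open Pool.Agent.H620R2.Gauge (SAlg IsPSPACE)
open Pool.Agent.TH678.GC (join)
open Pool.Agent.TH678.RS (bt)
open Pool.Agent.Y626.WX (Cp)
open Pool.Agent.J6H49.PHC (oracle)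

/-- the input `x` with three numbers in unary notation -/
def pin (x : List Bool) (N : ℕ × ℕ × ℕ) : List Bool :=
  pairBits x (pos N.1 N.2.1 (List.replicate N.2.2 true))

theorem pin_inj {x x' : List Bool} {N N' : ℕ × ℕ × ℕ} (h : pin x N = pin x' N') :
    x = x' ∧ N = N' := by
  unfold pin at h
  have h1 := congrArg unpair h
  rw [unpair_pairBits, unpair_pairBits, Prod.mk.injEq] at h1
  obtain ⟨h2, h3, h4⟩ := pos_inj h1.2
  have h5 := congrArg List.length h4
  rw [List.length_replicate, List.length_replicate] at h5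
  exact ⟨h1.1, Prod.ext h2 (Prod.ext h3 h5)⟩

theorem length_pin (x : List Bool) (N : ℕ × ℕ × ℕ) :
    (pin x N).length = 2 * x.length + 1 + (N.1 + N.2.1 + N.2.2 + 2) := by
  unfold pin
  rw [length_pairBits, length_pos, List.length_replicate]

variable {g : ℕ → SAlg × Polynomial ℕ} {S : ℕ → Polynomial ℕ} {Φ : Oracle → Oracle}
  {α : ℕ → ℕ}

/-- the condition for a true code -/
def Tc (g : ℕ → SAlg × Polynomial ℕ) (S : ℕ → Polynomial ℕ) (t : ℕ → ℕ) (B : Oracle)
    (e i : ℕ) (x : List Bool) (N : ℕ × ℕ × ℕ) : Prop :=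
  (S e).eval (pin x N).length ≤ i ∧ t x.length ≤ i ∧
    Pool.Agent.H620R2.Gauge.CC.Acc (g e).1
      (Pool.Agent.H620R2.Gauge.CC.cut ((S e).eval (pin x N).length) B) (pin x N)

/-- `T` is a table of thin codes -/
def Thin (g : ℕ → SAlg × Polynomial ℕ) (S : ℕ → Polynomial ℕ) (t : ℕ → ℕ) (B T : Oracle) : Prop :=
  ∀ u, T u = true ↔ ∃ e i x N, u = pos e i (pin x N) ∧ Tc g S t B e i x N

theorem exists_thin (hc : Cp g S (bt α) Φ) (t : ℕ → ℕ) (C A : Oracle) :
    ∃ T : Oracle, Thin g S t (oracle Φ (join C T) A) T := by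
  classical
  obtain ⟨T, hT⟩ := exists_fixed (fun T u => decide (∃ e i x N, u = pos e i (pin x N) ∧
    Tc g S t (oracle Φ (join C T) A) e i x N)) (by
    intro T T' u hu
    apply decide_eq_decide.2
    refine exists_congr fun e => exists_congr fun i => exists_congr fun x =>
      exists_congr fun N => and_congr_right fun hxu => ?_
    unfold Tc
    refine and_congr_right fun h1 => and_congr_right fun _ => ?_
    have h2 : Pool.Agent.H620R2.Gauge.CC.cut ((S e).eval (pin x N).length)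
        (oracle Φ (join C T) A) = Pool.Agent.H620R2.Gauge.CC.cut ((S e).eval (pin x N).length)
        (oracle Φ (join C T') A) := by
      funext z
      unfold Pool.Agent.H620R2.Gauge.CC.cut
      split_ifs with hz
      · refine O_loc hc (ℓ := (S e).eval (pin x N).length) (fun v hv => ?_) (fun _ _ => rfl) hz
        match v with
        | [] => rfl
        | false :: w => rfl
        | true :: w =>
          show T w = T' w
          apply hu
          rw [hxu, length_pos]
          rw [List.length_cons] at hv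
          omega
      · rfl
    rw [h2])
  refine ⟨T, fun u => ?_⟩
  rw [hT, decide_eq_true_eq]

theorem Thin.at {B T : Oracle} {t : ℕ → ℕ} (hT : Thin g S t B T) {e i : ℕ} {x : List Bool}
    {N : ℕ × ℕ × ℕ} : T (pos e i (pin x N)) = true ↔ Tc g S t B e i x N := by
  rw [hT]
  constructor
  · rintro ⟨e', i', x', N', h1, h2⟩
    obtain ⟨h3, h4, h5⟩ := pos_inj h1
    obtain ⟨h6, h7⟩ := pin_inj h5
    subst h3 h4 h6 h7
    exact h2
  · exact fun h => ⟨e, i, x, N, rfl, h⟩

/-- **The thin codes tell the truth.** -/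
theorem Thin.code {B T : Oracle} {t : ℕ → ℕ} (hg : Function.Surjective g)
    (hc : Cp g S (bt α) Φ) (hT : Thin g S t B T) {L : Set (List Bool)} (hL : IsPSPACE B L) :
    ∃ e : ℕ, ∀ (x : List Bool) (N : ℕ × ℕ × ℕ) (i : ℕ), (S e).eval (pin x N).length ≤ i → t x.length ≤ i →
      (T (pos e i (pin x N)) = true ↔ pin x N ∈ L) := by
  obtain ⟨M, p, hM⟩ := hL
  obtain ⟨e, he⟩ := hg (M, p)
  refine ⟨e, fun x N i hi hi' => ?_⟩
  rw [hT.at]
  have h0 : Tc g S t B e i x N ↔ Pool.Agent.H620R2.Gauge.CC.Acc (g e).1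
      (Pool.Agent.H620R2.Gauge.CC.cut ((S e).eval (pin x N).length) B) (pin x N) :=
    ⟨fun h => h.2.2, fun h => ⟨hi, hi', h⟩⟩
  rw [h0]
  have hloc := hc.loc e
  rw [he] at hloc ⊢
  set y := pin x N with hy
  obtain ⟨hM1, s, z, hs, hz, hLz⟩ := hM y
  have hcong : ∀ s, M.Reach (Pool.Agent.H620R2.Gauge.CC.cut ((S e).eval y.length) B) y s ↔
      M.Reach B y s := by
    refine Pool.Agent.H620R2.Gauge.CC.reach_congr (fun s => s.length ≤ p.eval y.length) hM1 ?_
    intro s q h1 h2
    have h3 := hloc y s h1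
    rw [h2, List.length_cons] at h3
    unfold Pool.Agent.H620R2.Gauge.CC.cut
    rw [if_pos (by omega)]
  constructor
  · rintro ⟨t, ht, ht2⟩
    have hst := Pool.Agent.H620R2.Gauge.CC.reach_unique hs ((hcong t).1 ht) ⟨_, hz⟩ ⟨_, ht2⟩
    rw [hst, ht2] at hz
    simp only [List.cons.injEq, true_and] at hz
    exact hLz.2 hz.symm
  · intro hx
    refine ⟨s, (hcong s).2 hs, ?_⟩
    rw [hz, hLz.1 hx]

/-- a finite set with the true codes of length at most `m` for inputs of length at most `l` -/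
def box (m l : ℕ) : Finset (List Bool) :=
  ((Finset.range (m + 1) ×ˢ Finset.range (m + 1)) ×ˢ
    ((Finset.range (m + 1) ×ˢ (Finset.range (m + 1) ×ˢ Finset.range (m + 1))) ×ˢ
      (strs l).toFinset)).image fun q => pos q.1.1 q.1.2 (pin q.2.2 q.2.1)

theorem card_box (m l : ℕ) : (box m l).card ≤ (m + 1) ^ 5 * 2 ^ (l + 1) := by
  unfold box
  refine Finset.card_image_le.trans ?_
  rw [Finset.card_product, Finset.card_product, Finset.card_product, Finset.card_product,
    Finset.card_product, Finset.card_range]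
  have h1 : ((strs l).toFinset).card ≤ 2 ^ (l + 1) := by
    have := List.toFinset_card_le (strs l)
    have := length_strs l
    omega
  calc (m + 1) * (m + 1) * ((m + 1) * ((m + 1) * (m + 1)) * ((strs l).toFinset).card) ≤
      (m + 1) * (m + 1) * ((m + 1) * ((m + 1) * (m + 1)) * 2 ^ (l + 1)) := by gcongr
    _ = _ := by ring

/-- **The table of thin codes has subexponential density.** -/
theorem Thin.dense {B T : Oracle} {t : ℕ → ℕ} (ht : Superpoly t) (hT : Thin g S t B T) :
    SubexpDense T := by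
  intro k
  obtain ⟨l₀, hl₀⟩ := eventually_atTop.1 (ht (2 * (k + 1)))
  obtain ⟨n₀, hn₀⟩ := poly_le_two_pow ((Polynomial.X ^ k + 1) ^ 10)
  filter_upwards [eventually_ge_atTop (l₀ * l₀ + n₀ + 100)] with n hn
  have hl : l₀ ≤ Nat.sqrt n := Nat.le_sqrt.2 (by omega)
  have hsub : {x : List Bool | x.length ≤ n ^ k ∧ T x = true} ⊆
      (box (n ^ k) (Nat.sqrt n) : Set (List Bool)) := by
    rintro u ⟨hu1, hu2⟩
    obtain ⟨e, i, x, N, rfl, h1, h2, -⟩ := (hT u).1 hu2
    rw [length_pos, length_pin] at hu1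
    have hx : x.length ≤ Nat.sqrt n := by
      rcases le_total x.length l₀ with h3 | h3
      · exact h3.trans hl
      · rw [Nat.le_sqrt]
        by_contra hcon
        push Not at hcon
        have h4 := hl₀ _ h3
        have h5 : n ^ (k + 1) < x.length ^ (2 * (k + 1)) := by
          rw [pow_mul, pow_two]
          exact Nat.pow_lt_pow_left hcon (by omega)
        have h6 : n ^ k ≤ n ^ (k + 1) := Nat.pow_le_pow_right (by omega) (by omega)
        omega
    unfold box
    rw [Finset.mem_coe, Finset.mem_image]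
    refine ⟨((e, i), (N, x)), ?_, rfl⟩
    simp only [Finset.mem_product, Finset.mem_range, List.mem_toFinset, mem_strs]
    refine ⟨⟨?_, ?_⟩, ⟨?_, ?_, ?_⟩, hx⟩ <;> omega
  refine (Set.ncard_le_ncard hsub (Finset.finite_toSet _)).trans ?_
  rw [Set.ncard_coe_finset]
  refine (card_box _ _).trans ?_
  have h7 := hn₀ n (by omega)
  simp only [Polynomial.eval_pow, Polynomial.eval_add, Polynomial.eval_X,
    Polynomial.eval_one] at h7
  have h8 : (n ^ k + 1) ^ 5 * ((n ^ k + 1) ^ 5) ≤ 2 ^ n := by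
    calc (n ^ k + 1) ^ 5 * ((n ^ k + 1) ^ 5) = (n ^ k + 1) ^ 10 := by ring
      _ ≤ 2 ^ n := by omega
  have h9 : 2 ^ (Nat.sqrt n + 1) * 2 ^ (Nat.sqrt n + 1) ≤ 2 ^ n := by
    rw [← pow_add]
    apply Nat.pow_le_pow_right (by norm_num)
    have h10 : Nat.sqrt n * Nat.sqrt n ≤ n := Nat.sqrt_le n
    have h11 : 4 ≤ Nat.sqrt n := Nat.le_sqrt.2 (by omega)
    nlinarith
  by_contra hcon
  push Not at hcon
  have h12 : 2 ^ n * 2 ^ n < ((n ^ k + 1) ^ 5 * 2 ^ (Nat.sqrt n + 1)) *
      ((n ^ k + 1) ^ 5 * 2 ^ (Nat.sqrt n + 1)) := Nat.mul_lt_mul'' hcon hcon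
  have h13 : ((n ^ k + 1) ^ 5 * 2 ^ (Nat.sqrt n + 1)) *
      ((n ^ k + 1) ^ 5 * 2 ^ (Nat.sqrt n + 1)) ≤ 2 ^ n * 2 ^ n := by
    calc _ = ((n ^ k + 1) ^ 5 * ((n ^ k + 1) ^ 5)) *
          (2 ^ (Nat.sqrt n + 1) * 2 ^ (Nat.sqrt n + 1)) := by ring
      _ ≤ _ := Nat.mul_le_mul h8 h9
  omega

end Pool.Agent.J6H49.ES
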