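import Pool.Agent.J6H49.ES.Exact
import Pool.Agent.Y626.WC.Sim

/-!
# Universal simulation with the help of a table of all polynomial-time functions
-/

set_option autoImplicit false

namespace Pool.Agent.J6H49.ES

open Pool.Agent.NPC Pool.Agent.H628R3.RO Filter Pool.Agent.J6H49.OP Pool.Agent.J6H49.IP
open Pool.Agent.J6H54.RO
open Pool.Agent.H622R2 (poly_pairBits poly_of_polyTime)
open Pool.Agent.Y626.WC (cmb poly_cmb cmb_eq)

theorem exists_enum_polyTime : ∃ Dn : ℕ → List Bool → List Bool, (∀ i, PolyTime (Dn i)) ∧
    ∀ D, PolyTime D → ∃ i, Dn i = D := by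
  have h1 : Countable {D : List Bool → List Bool | PolyTime D} := countable_polyTime.to_subtype
  have h2 : Nonempty {D : List Bool → List Bool | PolyTime D} :=
    ⟨⟨_, Pool.Agent.H620R2.Gauge.CC.const_polyTime []⟩⟩
  obtain ⟨f, hf⟩ := exists_surjective_nat {D : List Bool → List Bool | PolyTime D}
  refine ⟨fun i => (f i).1, fun i => (f i).2, fun D hD => ?_⟩
  obtain ⟨i, hi⟩ := hf ⟨D, hD⟩
  exact ⟨i, congrArg Subtype.val hi⟩

/-- a question to the table -/
def uq (i : List Bool) (u : List Bool) (b : Bool) (j : ℕ) : List Bool :=
  pairBits i (pairBits u (b :: List.replicate j true))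

/-- the answer to the last part of the question -/
def uans (v : List Bool) : List Bool → Bool
  | [] => false
  | true :: s => decide (s.length < v.length)
  | false :: s => v.getD s.length false

/-- the table of all polynomial-time functions -/
def utab (Dn : ℕ → List Bool → List Bool) : Oracle := fun q =>
  uans (Dn (unpair q).1.length (unpair (unpair q).2).1) (unpair (unpair q).2).2

theorem utab_true (Dn : ℕ → List Bool → List Bool) (i u : List Bool) (j : ℕ) :
    utab Dn (uq i u true j) = decide (j < (Dn i.length u).length) := by
  unfold utab uq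
  simp only [unpair_pairBits, uans, List.length_replicate]

theorem utab_false (Dn : ℕ → List Bool → List Bool) (i u : List Bool) (j : ℕ) :
    utab Dn (uq i u false j) = (Dn i.length u).getD j false := by
  unfold utab uq
  simp only [unpair_pairBits, uans, List.length_replicate]

/-- the questions for the first `m` bits -/
def uqs (w i u : List Bool) (m : ℕ) (b : Bool) : List (List Bool) :=
  (List.range m).map fun j => w ++ uq i u b (min j m)

theorem p_uqs {α : Type} [TEnc α] (w : List Bool) {i u : α → List Bool} {m : α → ℕ} (b : Bool)
    (hi : Poly i) (hu : Poly u) (hm : UPoly m) : Poly (fun a => uqs w (i a) (u a) (m a) b) := by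
  have h1 : Poly (fun p : α × ℕ => p.1) := Poly.fst Poly.id
  have h2 : Poly (fun p : α × ℕ => p.2) := Poly.snd Poly.id
  refine NPC.Poly.map (F := fun (a : α) (j : ℕ) => w ++ uq (i a) (u a) b (min j (m a))) hm.range ?_
  refine Poly.append (NPC.Poly.const w) ?_
  refine poly_pairBits (hi.comp h1) (poly_pairBits (hu.comp h1)
    (Poly.cons (NPC.Poly.const b) (p_replicate ?_ true)))
  exact UPoly.of_le (Poly.min h2 ((hm.comp h1).toPoly)) (hm.comp h1) fun p => min_le_right _ _

theorem uqs_map {B : Oracle} {w : List Bool} {Dn : ℕ → List Bool → List Bool}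
    (hw : ∀ x, B (w ++ x) = utab Dn x) (i u : List Bool) (m : ℕ) :
    (uqs w i u m true).map B = (List.range m).map (fun j =>
      decide (j < ((Dn i.length u).take m).length)) ∧
    (uqs w i u m false).map B = (List.range m).map (fun j =>
      ((Dn i.length u).take m).getD j false) := by
  unfold uqs
  rw [List.map_map, List.map_map]
  constructor
  · apply List.map_congr_left
    intro j hj
    rw [List.mem_range] at hj
    show B (w ++ uq i u true (min j m)) = _
    rw [hw, min_eq_left hj.le, utab_true]
    apply decide_eq_decide.2
    rw [List.length_take]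
    omega
  · apply List.map_congr_left
    intro j hj
    rw [List.mem_range] at hj
    show B (w ++ uq i u false (min j m)) = _
    rw [hw, min_eq_left hj.le, utab_false]
    simp only [List.getD_eq_getElem?_getD]
    rw [List.getElem?_take_of_lt hj]

/-- the values of all polynomial-time functions are computed with the table -/
theorem isFP_ev {B : Oracle} {w : List Bool} {Dn : ℕ → List Bool → List Bool}
    (hw : ∀ x, B (w ++ x) = utab Dn x) {i u : List Bool → List Bool} {m : List Bool → ℕ}
    (hi : Poly i) (hu : Poly u) (hm : UPoly m) :
    IsFP B (fun z => (Dn (i z).length (u z)).take (m z)) := by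
  have hr : ∀ b, IsFP B (fun z => (uqs w (i z) (u z) (m z) b).map B) := by
    intro b
    exact IsFP.tt (Q := fun z => uqs w (i z) (u z) (m z) b) (H := fun p => p.2)
      (p_uqs w b hi hu hm) (Poly.snd Poly.id)
  have h := IsFP.seq (hr true) (hr false) (φ := fun p => p.1) (ψ := fun p => cmb p.2.1 p.2.2)
    (NPC.Poly.fst NPC.Poly.id) (poly_cmb (NPC.Poly.fst (NPC.Poly.snd NPC.Poly.id))
      (NPC.Poly.snd (NPC.Poly.snd NPC.Poly.id)))
  refine (congrArg (IsFP B) (funext fun z => ?_)).mp h
  show cmb ((uqs w (i z) (u z) (m z) true).map B) ((uqs w (i z) (u z) (m z) false).map B) = _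
  obtain ⟨h1, h2⟩ := uqs_map hw (i z) (u z) (m z)
  rw [h1, h2]
  exact cmb_eq _ _ (List.length_take_le _ _)

/-- the input for the universal algorithm -/
def inp (i : ℕ) (w : List Bool) (c : ℕ) : List Bool :=
  pairBits (List.replicate i true) (pairBits w (List.replicate c true))

theorem length_inp (i : ℕ) (w : List Bool) (c : ℕ) :
    (inp i w c).length = 2 * i + 1 + (2 * w.length + 1 + c) := by
  unfold inp
  rw [length_pairBits, length_pairBits, List.length_replicate, List.length_replicate]

/-- the next action, in the state `(z, h)` -/
def uact (Dn : ℕ → List Bool → List Bool) (z h : List Bool) : List Bool :=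
  (Dn (unpair z).1.length (pairBits (unpair (unpair z).2).1 h)).take z.length

/-- one step -/
def ustep (Dn : ℕ → List Bool → List Bool) (B : Oracle) (s : List Bool) : List Bool :=
  if (uact Dn (unpair s).1 (unpair s).2).head? = some false then
    pairBits (unpair s).1 ((unpair s).2 ++ [B (uact Dn (unpair s).1 (unpair s).2).tail])
  else s

/-- the universal function -/
def ufun (Dn : ℕ → List Bool → List Bool) (B : Oracle) (z : List Bool) : List Bool :=
  let s := (ustep Dn B)^[z.length] (pairBits z [])
  if (uact Dn (unpair s).1 (unpair s).2).head? = some false then []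
  else (uact Dn (unpair s).1 (unpair s).2).tail

section

variable {B : Oracle} {w : List Bool} {Dn : ℕ → List Bool → List Bool}

theorem isFP_uact (hw : ∀ x, B (w ++ x) = utab Dn x) :
    IsFP B (fun s => uact Dn (unpair s).1 (unpair s).2) := by
  have h1 : Poly (fun s : List Bool => (unpair s).1) := Poly.fst poly_unpair
  have h2 : Poly (fun s : List Bool => (unpair s).2) := Poly.snd poly_unpair
  exact isFP_ev hw (i := fun s => (unpair (unpair s).1).1)
    (u := fun s => pairBits (unpair (unpair (unpair s).1).2).1 (unpair s).2)
    (m := fun s => (unpair s).1.length) (h1.comp h1)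
    (poly_pairBits (h1.comp (h2.comp h1)) h2) (UPoly.length h1)

theorem isFP_ustep (hw : ∀ x, B (w ++ x) = utab Dn x) : IsFP B (ustep Dn B) := by
  have hask : IsFP B (fun z : List Bool => [B z]) :=
    IsFP.tt (Q := fun z : List Bool => [z]) (H := fun p => p.2)
      (Poly.cons Poly.id (NPC.Poly.const [])) (Poly.snd Poly.id)
  have h := IsFP.seq (isFP_uact hw) hask (φ := fun p => p.2.tail)
    (ψ := fun p => if p.2.1.head? = some false then
      pairBits (unpair p.1).1 ((unpair p.1).2 ++ p.2.2) else p.1)
    (Poly.tail (Poly.snd Poly.id)) (by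
      have ha : Poly (fun p : List Bool × List Bool × List Bool => p.1) := Poly.fst Poly.id
      have hb : Poly (fun p : List Bool × List Bool × List Bool => p.2.1) :=
        Poly.fst (Poly.snd Poly.id)
      have hc : Poly (fun p : List Bool × List Bool × List Bool => p.2.2) :=
        Poly.snd (Poly.snd Poly.id)
      refine Poly.ite (Poly.decide_eq (Poly.head? hb) (NPC.Poly.const _)) ?_ ha
      exact poly_pairBits ((Poly.fst poly_unpair).comp ha)
        (Poly.append ((Poly.snd poly_unpair).comp ha) hc))
  exact h

theorem ustep_len (B : Oracle) (Dn : ℕ → List Bool → List Bool) (z : List Bool) (k : ℕ) :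
    ∃ h : List Bool, (ustep Dn B)^[k] (pairBits z []) = pairBits z h ∧ h.length ≤ k := by
  induction k with
  | zero => exact ⟨[], rfl, le_rfl⟩
  | succ k ih =>
    obtain ⟨h, h1, h2⟩ := ih
    rw [Function.iterate_succ_apply', h1]
    unfold ustep
    simp only [unpair_pairBits]
    split_ifs
    · exact ⟨_, rfl, by rw [List.length_append, List.length_singleton]; omega⟩
    · exact ⟨h, rfl, by omega⟩

theorem isFP_ufun (hw : ∀ x, B (w ++ x) = utab Dn x) : IsFP B (ufun Dn B) := by
  have hloop := Pool.Agent.H620R2.Gauge.IsFP.loop (isFP_tra (isFP_ustep hw))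
    (g := fun z => pairBits z []) (poly_pairBits Poly.id (NPC.Poly.const []))
    Polynomial.X (3 * Polynomial.X + 1) (by
      intro z k hk
      rw [Polynomial.eval_X] at hk
      obtain ⟨h, h1, h2⟩ := ustep_len B Dn z k
      rw [h1, length_pairBits]
      simp only [Polynomial.eval_add, Polynomial.eval_mul, Polynomial.eval_ofNat,
        Polynomial.eval_X, Polynomial.eval_one]
      omega)
  simp only [Polynomial.eval_X] at hloop
  have hfin : IsFP B (fun s : List Bool =>
      if (uact Dn (unpair s).1 (unpair s).2).head? = some false then []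
      else (uact Dn (unpair s).1 (unpair s).2).tail) :=
    IsFP.comp (G := fun v : List Bool => if v.head? = some false then [] else v.tail)
      (IsFP.of_poly (Poly.ite (Poly.decide_eq (Poly.head? Poly.id) (NPC.Poly.const _))
        (NPC.Poly.const _) (Poly.tail Poly.id))) (isFP_uact hw)
  have h := IsFP.comp hfin (isFP_tra' hloop)
  exact h

end

/-- the lengths of the actions -/
theorem act_length (M : Alg) : ∃ b : Polynomial ℕ, ∀ x a : List Bool,
    a.length ≤ M.p.eval x.length → (M.D (pairBits x a)).length ≤ b.eval x.length := by
  obtain ⟨q, hq⟩ := (poly_of_polyTime M.poly).sz_le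
  refine ⟨q.comp (Polynomial.C 4 * (Polynomial.C 2 * Polynomial.X + Polynomial.C 1 + M.p) +
    Polynomial.C 1), fun x a ha => ?_⟩
  have h1 := length_lt_sz (M.D (pairBits x a))
  refine h1.le.trans ((hq _).trans ?_)
  rw [Polynomial.eval_comp]
  apply eval_mono
  have h2 := sz_listBool_le (pairBits x a)
  rw [length_pairBits] at h2
  simp only [Polynomial.eval_add, Polynomial.eval_mul, Polynomial.eval_C, Polynomial.eval_X]
  omega

theorem ufun_run (B : Oracle) (Dn : ℕ → List Bool → List Bool) {M : Alg} {i : ℕ}
    (hi : Dn i = M.D) {x : List Bool} {c : ℕ}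
    (hb : ∀ a : List Bool, a.length ≤ M.p.eval x.length →
      (M.D (pairBits x a)).length ≤ (inp i x c).length) {o : List Bool} :
    ∀ (n : ℕ) (a : List Bool), a.length + n = M.p.eval x.length → M.run B x n a = some o →
      ∀ k, n ≤ k + 1 → (uact Dn (inp i x c) (unpair ((ustep Dn B)^[k] (pairBits (inp i x c) a))).2).head?
        ≠ some false ∧
        (uact Dn (inp i x c) (unpair ((ustep Dn B)^[k] (pairBits (inp i x c) a))).2).tail = o := by
  have hact : ∀ a : List Bool, a.length ≤ M.p.eval x.length →
      uact Dn (inp i x c) a = M.D (pairBits x a) := by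
    intro a ha
    have h1 := hb a ha
    unfold uact
    have e1 : (unpair (inp i x c)).1.length = i := by
      unfold inp
      rw [unpair_pairBits, List.length_replicate]
    have e2 : (unpair (unpair (inp i x c)).2).1 = x := by
      unfold inp
      rw [unpair_pairBits]
      dsimp only
      rw [unpair_pairBits]
    rw [e1, e2, hi, List.take_of_length_le h1]
  intro n
  induction n with
  | zero =>
    intro a _ h
    simp [Alg.run] at h
  | succ n ih =>
    intro a ha h k hk
    have h1 := hact a (by omega)
    -- a state in which the algorithm has stopped is fixed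
    have hfix : (M.D (pairBits x a)).head? ≠ some false →
        (ustep Dn B)^[k] (pairBits (inp i x c) a) = pairBits (inp i x c) a := by
      intro h2
      have h3 : ustep Dn B (pairBits (inp i x c) a) = pairBits (inp i x c) a := by
        unfold ustep
        simp only [unpair_pairBits]
        rw [h1, if_neg h2]
      exact Pool.Agent.TH678.PN.iterate_fixed h3 k
    rcases hD : M.D (pairBits x a) with _ | ⟨b, q⟩
    · rw [hfix (by rw [hD]; simp), unpair_pairBits]
      dsimp only
      rw [h1, hD]
      simp only [Alg.run, hD, Option.some.injEq] at h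
      simp [← h]
    · cases b
      · -- a question
        simp only [Alg.run, hD] at h
        rcases k with _ | k
        · -- no more rounds: impossible
          have hn : n = 0 := by omega
          subst hn
          simp [Alg.run] at h
        · have h3 : ustep Dn B (pairBits (inp i x c) a) =
              pairBits (inp i x c) (a ++ [B q]) := by
            unfold ustep
            simp only [unpair_pairBits]
            rw [h1, hD]
            simp
          rw [Function.iterate_succ_apply, h3]
          refine ih (a ++ [B q]) ?_ h k (by omega)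
          rw [List.length_append, List.length_singleton]
          omega
      · rw [hfix (by rw [hD]; simp), unpair_pairBits]
        dsimp only
        rw [h1, hD]
        simp only [Alg.run, hD, Option.some.injEq] at h
        simp [← h]

/-- **The universal function simulates all algorithms.** -/
theorem ufun_spec (B : Oracle) {Dn : ℕ → List Bool → List Bool}
    (hDn : ∀ D, PolyTime D → ∃ i, Dn i = D) {F : List Bool → List Bool} (hF : IsFP B F) :
    ∃ (i : ℕ) (b : Polynomial ℕ), ∀ (x : List Bool) (c : ℕ), b.eval x.length ≤ c →
      ufun Dn B (inp i x c) = F x := by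
  obtain ⟨M, hM⟩ := hF
  obtain ⟨i, hi⟩ := hDn M.D M.poly
  obtain ⟨b, hb⟩ := act_length M
  refine ⟨i, b + M.p, fun x c hc => ?_⟩
  rw [Polynomial.eval_add] at hc
  have hlen := length_inp i x c
  have h1 := ufun_run B Dn (c := c) hi (fun a ha => (hb x a ha).trans (by omega))
    (M.p.eval x.length) [] (by simp) (hM x) (inp i x c).length (by omega)
  obtain ⟨h, h2, -⟩ := ustep_len B Dn (inp i x c) (inp i x c).length
  unfold ufun
  simp only [h2, unpair_pairBits] at h1 ⊢
  rw [if_neg h1.1, h1.2]

end Pool.Agent.J6H49.ES
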