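import Pool.Agent.J6H49.ES.POpt
import Pool.Agent.J6H49.ES.Main

/-!
# The world in which everything above polynomial collapses, with universal algorithms
-/

set_option autoImplicit false

namespace Pool.Agent.J6H49.ES

open Pool.Agent.NPC Pool.Agent.H628R3.RO Filter Pool.Agent.J6H49.OP Pool.Agent.J6H49.IP
open MeasureTheory Pool.Agent.J6H54.RO
open Pool.Agent.H620R2.Gauge (SAlg IsPSPACE)
open Pool.Agent.TH678.GC (join)
open Pool.Agent.TH678.RS (bt)
open Pool.Agent.Y626.WX (Cp exists_cp)
open Pool.Agent.J6H49.PHC (oracle)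

/-- relative to `B` there are universal algorithms and tests, and all nonempty problems in polynomial
space have proof systems -/
structure Uni (B : Oracle) : Prop where
  uni : ∃ (w : List Bool) (Dn : ℕ → List Bool → List Bool), (∀ x, B (w ++ x) = utab Dn x) ∧
    ∀ D, PolyTime D → ∃ i, Dn i = D
  tests : Tests B
  systems : ∀ L, IsPSPACE B L → L.Nonempty → ∃ Q, IsProofSystem B L Q

theorem world (t : ℕ → ℕ) (ht : Superpoly t) (C : Oracle) :
    ∃ O : Oracle → Oracle,
      (∀ A, CollapsedAbove t (O A) ∧ Contains (O A) A ∧ Contains (O A) C ∧ Uni (O A)) ∧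
      ∀ᵐ A ∂randomOracle, ∃ L : Set (List Bool), IsCoNP (O A) L ∧
        ∀ T : Oracle, SubexpDense T → ¬ IsIPio (join (O A) T) L := by
  obtain ⟨g, hg⟩ := Pool.Agent.H620R2.Gauge.CC.exists_enum
  obtain ⟨S, Φ, hc⟩ := exists_cp g (bt (slow2 id))
  obtain ⟨Dn, -, hDn⟩ := exists_enum_polyTime
  set C' : Oracle := join C (utab Dn) with hC'
  choose T hT using fun A => exists_thin hc t C' A
  refine ⟨fun A => oracle Φ (join C' (T A)) A, fun A => ⟨?_, ⟨[false, false], fun x => rfl⟩,
    ⟨[false, true, false, false], fun x => rfl⟩, ⟨⟨[false, true, false, true], Dn, fun x => rfl,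
      hDn⟩, ?_, fun L hL hne => ?_⟩⟩, ?_⟩
  · exact (hT A).exact (w := [false, true, true]) (fun x => rfl) hg hc
  · exact (hT A).tests (w := [false, true, true]) (fun x => rfl) hg hc
  · exact (hT A).exists_proofSystem (w := [false, true, true]) (fun x => rfl) hg hc hL hne
  · filter_upwards [ae_main2 hc (slow2_mono monotone_id) (slow2_tendsto tendsto_id) C'] with A hA
    refine ⟨(HL A)ᶜ, ?_, fun T' hT' => hA (T A) T' ((hT A).dense ht) hT'⟩
    unfold IsCoNP
    rw [compl_compl]
    exact isNP_lift [false, false] (fun x => rfl) (isNP_HL A)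

theorem Uni.pOptimal {B : Oracle} (h : Uni B) {L : Set (List Bool)} (hL : IsPSPACE B L)
    (hne : L.Nonempty) : ∃ P, IsPOptimal B L P := by
  obtain ⟨w, Dn, hw, hDn⟩ := h.uni
  obtain ⟨Q₀, hQ₀⟩ := h.systems L hL hne
  exact exists_pOptimal hw hDn h.tests hL hQ₀

end Pool.Agent.J6H49.ES
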